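import Mathlib
import Pool.Agent.Helper34.Dg.Bfac

/-!
# Composition of Blaschke products, part 1
-/

set_option autoImplicit false
set_option maxHeartbeats 400000

open Filter Topology Complex Metric Set
open scoped ComplexConjugate

namespace Pool.Agent.K3h78.IB

open Pool.Agent.Helper34.Dg (disc mem_disc bfac bfac_le bfac_eq_zero bfac_sub_one bfac_diff
  one_sub_le bden_ne one_sub_bfac)

section family

variable {ι : Type} {a : ι → ℂ}

/-- infinite Blaschke product -/
noncomputable def bp (a : ι → ℂ) (z : ℂ) : ℂ := ∏' i, bfac (a i) z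

variable (ha : ∀ i, a i ∈ disc) (hs : Summable fun i => 1 - ‖a i‖)

include ha hs in
lemma bp_summable {z : ℂ} (hz : z ∈ disc) : Summable fun i => ‖bfac (a i) z - 1‖ := by
  have hz1 : ‖z‖ < 1 := mem_disc.1 hz
  refine Summable.of_nonneg_of_le (fun _ => norm_nonneg _) (fun i => ?_)
    (hs.mul_right (2 / (1 - ‖z‖)))
  rw [mul_div, le_div_iff₀ (by linarith)]
  exact bfac_sub_one (ha i) hz

include ha hs in
lemma bp_hasProd {z : ℂ} (hz : z ∈ disc) : HasProd (fun i => bfac (a i) z) (bp a z) := by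
  have h1 : Multipliable fun i => (1 + (bfac (a i) z - 1)) :=
    multipliable_one_add_of_summable (bp_summable ha hs hz)
  have h2 : (fun i => (1 + (bfac (a i) z - 1))) = fun i => bfac (a i) z := by
    funext i; ring
  rw [h2] at h1
  exact h1.hasProd

include ha hs in
lemma bp_diff : DifferentiableOn ℂ (bp a) disc := by
  have hball : ∀ R : ℝ, R < 1 → DifferentiableOn ℂ (bp a) (ball 0 R) := by
    intro R hR1
    have hsub : ball (0 : ℂ) R ⊆ disc := ball_subset_ball hR1.le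
    have h1 : HasProdLocallyUniformlyOn
        (fun (i : ι) z => 1 + (bfac (a i) z - 1)) (fun z => ∏' i, (1 + (bfac (a i) z - 1)))
        (ball 0 R) := by
      refine Summable.hasProdLocallyUniformlyOn_one_add isOpen_ball
        (u := fun i => (1 - ‖a i‖) * (2 / (1 - R))) (hs.mul_right _) ?_ ?_
      · refine Filter.Eventually.of_forall fun i z hz => ?_
        have h2 := bfac_sub_one (ha i) (hsub hz)
        rw [mul_div, le_div_iff₀ (by linarith)]
        refine le_trans ?_ h2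
        apply mul_le_mul_of_nonneg_left _ (norm_nonneg _)
        rw [mem_ball_zero_iff] at hz
        linarith
      · intro i
        exact ((bfac_diff (ha i)).continuousOn.mono hsub).sub continuousOn_const
    have h2 : DifferentiableOn ℂ (fun z => ∏' i, (1 + (bfac (a i) z - 1))) (ball 0 R) := by
      refine TendstoLocallyUniformlyOn.differentiableOn
        (hasProdLocallyUniformlyOn_iff_tendstoLocallyUniformlyOn.1 h1) ?_ isOpen_ball
      refine Filter.Eventually.of_forall fun s => ?_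
      refine DifferentiableOn.fun_finsetProd fun i _ => ?_
      exact (differentiableOn_const _).add
        (((bfac_diff (ha i)).mono hsub).sub (differentiableOn_const _))
    refine h2.congr fun z _ => ?_
    unfold bp
    congr 1
    funext i; ring
  intro z hz
  obtain ⟨R, hR0, hR1⟩ := exists_between (mem_disc.1 hz)
  exact ((hball R hR1).differentiableAt
    (isOpen_ball.mem_nhds (mem_ball_zero_iff.2 hR0))).differentiableWithinAt

include ha hs in
lemma bp_le_fin (s : Finset ι) {z : ℂ} (hz : z ∈ disc) :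
    ‖bp a z‖ ≤ ∏ i ∈ s, ‖bfac (a i) z‖ := by
  refine le_of_tendsto (bp_hasProd ha hs hz).norm ?_
  filter_upwards [eventually_ge_atTop s] with t ht
  classical
  rw [← Finset.prod_sdiff ht]
  refine mul_le_of_le_one_left (Finset.prod_nonneg fun _ _ => norm_nonneg _) ?_
  exact Finset.prod_le_one (fun _ _ => norm_nonneg _) fun i _ => bfac_le (ha i) hz

include ha hs in
lemma bp_le {z : ℂ} (hz : z ∈ disc) : ‖bp a z‖ ≤ 1 := by
  simpa using bp_le_fin ha hs ∅ hz

end family

/-- `u` is a unimodular constant times a convergent product of Blaschke factors -/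
def Bl (u : ℂ → ℂ) : Prop :=
  ∃ (c : ℂ) (ι : Type) (a : ι → ℂ), ‖c‖ = 1 ∧ (∀ i, a i ∈ disc) ∧
    (Summable fun i => 1 - ‖a i‖) ∧ ∀ z ∈ disc, u z = c * bp a z

theorem Bl.diff {u : ℂ → ℂ} (h : Bl u) : DifferentiableOn ℂ u disc := by
  obtain ⟨c, ι, a, -, ha, hs, hu⟩ := h
  exact ((bp_diff ha hs).const_mul c).congr hu

theorem Bl.le {u : ℂ → ℂ} (h : Bl u) {z : ℂ} (hz : z ∈ disc) : ‖u z‖ ≤ 1 := by
  obtain ⟨c, ι, a, hc, ha, hs, hu⟩ := h
  rw [hu z hz, norm_mul, hc, one_mul]
  exact bp_le ha hs hz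

theorem Bl.const_mul {u : ℂ → ℂ} (h : Bl u) {c : ℂ} (hc : ‖c‖ = 1) : Bl fun z => c * u z := by
  obtain ⟨c', ι, a, hc', ha, hs, hu⟩ := h
  refine ⟨c * c', ι, a, by rw [norm_mul, hc, hc', one_mul], ha, hs, fun z hz => ?_⟩
  show c * u z = _
  rw [hu z hz, mul_assoc]

theorem Bl.congr {u v : ℂ → ℂ} (h : Bl u) (huv : ∀ z ∈ disc, v z = u z) : Bl v := by
  obtain ⟨c, ι, a, hc, ha, hs, hu⟩ := h
  exact ⟨c, ι, a, hc, ha, hs, fun z hz => by rw [huv z hz, hu z hz]⟩

/-- two holomorphic functions on the disc with the same modulus -/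
theorem same_norm {F G : ℂ → ℂ} (hF : DifferentiableOn ℂ F disc) (hG : DifferentiableOn ℂ G disc)
    (h : ∀ z ∈ disc, ‖F z‖ = ‖G z‖) {z₀ : ℂ} (hz₀ : z₀ ∈ disc) (h0 : F z₀ ≠ 0) :
    ∃ c : ℂ, ‖c‖ = 1 ∧ ∀ z ∈ disc, F z = c * G z := by
  have hG0 : G z₀ ≠ 0 := by
    intro h1
    apply h0
    rw [← norm_eq_zero, h z₀ hz₀, h1, norm_zero]
  have hop : IsOpen disc := isOpen_ball
  have hn : ∀ᶠ z in 𝓝 z₀, z ∈ disc ∧ G z ≠ 0 := by
    have h1 : ContinuousAt G z₀ := (hG.continuousOn.continuousAt (hop.mem_nhds hz₀))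
    exact (hop.eventually_mem hz₀).and (h1.eventually_ne hG0)
  have hd : ∀ᶠ z in 𝓝 z₀, DifferentiableAt ℂ (fun z => F z / G z) z := by
    filter_upwards [hn] with z hz
    exact (hF.differentiableAt (hop.mem_nhds hz.1)).fun_div
      (hG.differentiableAt (hop.mem_nhds hz.1)) hz.2
  have h1 : ∀ z, z ∈ disc → G z ≠ 0 → ‖F z / G z‖ = 1 := by
    intro z hz hGz
    rw [norm_div, h z hz, div_self (norm_ne_zero_iff.2 hGz)]
  have hmax : IsLocalMax (norm ∘ fun z => F z / G z) z₀ := by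
    filter_upwards [hn] with z hz
    simp only [Function.comp_apply]
    rw [h1 z hz.1 hz.2, h1 z₀ hz₀ hG0]
  have hc := eventually_eq_of_isLocalMax_norm hd hmax
  refine ⟨F z₀ / G z₀, h1 z₀ hz₀ hG0, ?_⟩
  have hFa : AnalyticOnNhd ℂ F disc := hF.analyticOnNhd hop
  have hGa : AnalyticOnNhd ℂ (fun z => (F z₀ / G z₀) * G z) disc :=
    (hG.const_mul _).analyticOnNhd hop
  refine hFa.eqOn_of_preconnected_of_eventuallyEq hGa (convex_ball _ _).isPreconnected hz₀ ?_
  filter_upwards [hc, hn] with z hz1 hz2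
  have hz1' : F z / G z = F z₀ / G z₀ := hz1
  rw [← hz1', div_mul_cancel₀ _ hz2.2]

/-- **The key step.** -/
theorem comp_bl {B C : ℂ → ℂ} (hB : Bl B) (hCd : DifferentiableOn ℂ C disc)
    (hCm : ∀ z ∈ disc, C z ∈ disc) (hC : ∀ a ∈ disc, Bl fun z => bfac a (C z)) {z₀ : ℂ}
    (hz₀ : z₀ ∈ disc) (h0 : B (C z₀) ≠ 0) : Bl fun z => B (C z) := by
  classical
  have hBd := hB.diff
  obtain ⟨c, ι, a, hc, ha, hs, hu⟩ := hB
  choose c' κ w hc' hw hsw hCu using fun i => hC (a i) (ha i)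
  have hnorm : ∀ i, ∀ z ∈ disc, ‖bfac (a i) (C z)‖ = ‖bp (w i) z‖ := by
    intro i z hz
    have e : bfac (a i) (C z) = c' i * bp (w i) z := hCu i z hz
    rw [e, norm_mul, hc' i, one_mul]
  have hBn : ∀ z ∈ disc, ‖B (C z)‖ = ‖bp a (C z)‖ := by
    intro z hz
    rw [hu _ (hCm z hz), norm_mul, hc, one_mul]
  let y : (Σ i, κ i) → ℂ := fun p => w p.1 p.2
  have hy : ∀ p, y p ∈ disc := fun p => hw p.1 p.2
  -- the finite products
  have hfin : ∀ s : Finset (Σ i, κ i), ∀ z ∈ disc, ‖B (C z)‖ ≤ ∏ p ∈ s, ‖bfac (y p) z‖ := by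
    intro s z hz
    have h1 : ‖B (C z)‖ ≤ ∏ i ∈ s.image Sigma.fst, ‖bfac (a i) (C z)‖ := by
      rw [hBn z hz]
      exact bp_le_fin ha hs _ (hCm z hz)
    refine h1.trans ?_
    let t : ∀ i, Finset (κ i) := fun i => s.preimage (Sigma.mk i) sigma_mk_injective.injOn
    have h2 : ∏ i ∈ s.image Sigma.fst, ‖bfac (a i) (C z)‖ ≤
        ∏ i ∈ s.image Sigma.fst, ∏ j ∈ t i, ‖bfac (w i j) z‖ := by
      apply Finset.prod_le_prod (fun _ _ => norm_nonneg _)
      intro i _
      rw [hnorm i z hz]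
      exact bp_le_fin (hw i) (hsw i) _ hz
    refine h2.trans (le_of_eq ?_)
    rw [← Finset.prod_sigma (s.image Sigma.fst) t (fun p => ‖bfac (y p) z‖)]
    congr 1
    ext ⟨i, j⟩
    simp only [Finset.mem_sigma, Finset.mem_image, t, Finset.mem_preimage]
    constructor
    · exact fun h => h.2
    · exact fun h => ⟨⟨⟨i, j⟩, h, rfl⟩, h⟩
  have hys : Summable fun p => 1 - ‖y p‖ := by
    have hz1 : ‖z₀‖ < 1 := mem_disc.1 hz₀
    have hupos : 0 < ‖B (C z₀)‖ := norm_pos_iff.2 h0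
    refine summable_of_sum_le (c := 4 * (-2 * Real.log ‖B (C z₀)‖) / (1 - ‖z₀‖))
      (fun i => ?_) fun s => ?_
    · have := mem_disc.1 (hy i)
      simp only [Pi.zero_apply]
      linarith
    · rw [le_div_iff₀ (by linarith), Finset.sum_mul]
      have hne : ∀ i, 0 < ‖bfac (y i) z₀‖ := by
        intro i
        have := hfin {i} z₀ hz₀
        rw [Finset.prod_singleton] at this
        linarith
      have h1 : ∀ i ∈ s, (1 - ‖y i‖) * (1 - ‖z₀‖) ≤ 4 * (-2 * Real.log ‖bfac (y i) z₀‖) := by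
        intro i _
        have h2 := one_sub_le (hy i) hz₀
        have h3 : Real.log (‖bfac (y i) z₀‖ ^ 2) ≤ ‖bfac (y i) z₀‖ ^ 2 - 1 :=
          Real.log_le_sub_one_of_pos (by have := hne i; positivity)
        rw [Real.log_pow] at h3
        push_cast at h3
        linarith
      refine (Finset.sum_le_sum h1).trans ?_
      rw [← Finset.mul_sum, ← Finset.mul_sum, ← Real.log_prod (fun i _ => (hne i).ne')]
      have h4 := Real.log_le_log hupos (hfin s z₀ hz₀)
      linarith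
  -- the modulus of the product
  have hmod : ∀ z ∈ disc, ‖B (C z)‖ = ‖bp y z‖ := by
    intro z hz
    have h1 : HasProd (fun p : Σ i, κ i => bfac (y p) z) (bp y z) := bp_hasProd hy hys hz
    have h2 : HasProd (fun i => bp (w i) z) (bp y z) :=
      h1.sigma fun i => bp_hasProd (hw i) (hsw i) hz
    have h3 := h2.norm
    have h4 := (bp_hasProd ha hs (hCm z hz)).norm
    have h5 : (fun i => ‖bp (w i) z‖) = fun i => ‖bfac (a i) (C z)‖ := by
      funext i
      exact (hnorm i z hz).symm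
    rw [h5] at h3
    rw [hBn z hz]
    exact h4.unique h3
  have hFd : DifferentiableOn ℂ (fun z => B (C z)) disc := hBd.comp hCd hCm
  obtain ⟨c₁, hc₁, h⟩ := same_norm hFd (bp_diff hy hys) hmod hz₀ h0
  exact ⟨c₁, _, y, hc₁, hy, hys, h⟩

end Pool.Agent.K3h78.IB
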