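import Mathlib
import Pool.Agent.K3h78.IB.A1

/-!
# Composition of Blaschke products, part 2
-/

set_option autoImplicit false
set_option maxHeartbeats 400000

open Filter Topology Complex Metric Set
open scoped ComplexConjugate

namespace Pool.Agent.K3h78.IB

open Pool.Agent.Helper34.Dg (disc mem_disc bfac bfac_le bfac_eq_zero bfac_sub_one bfac_diff
  one_sub_le bden_ne one_sub_bfac)

/-- the usual definition of a Blaschke product -/
def IsB (B : ℂ → ℂ) : Prop :=
  (∃ z w : ℂ, ‖z‖ < 1 ∧ ‖w‖ < 1 ∧ B z ≠ B w) ∧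
  ∃ (θ : ℝ) (m : ℕ) (S : Set ℕ) (a : ℕ → ℂ), (∀ n ∈ S, a n ≠ 0 ∧ ‖a n‖ < 1) ∧
    (Summable fun n : S => 1 - ‖a n‖) ∧
    ∀ z : ℂ, ‖z‖ < 1 → ∃ p : ℂ,
      HasProd (fun n : S => (‖a n‖ : ℂ) / a n * ((a n - z) / (1 - conj (a n) * z))) p ∧
      B z = cexp (θ * I) * z ^ m * p

/-- not constant on the disc -/
def NC (B : ℂ → ℂ) : Prop := ∃ z w : ℂ, ‖z‖ < 1 ∧ ‖w‖ < 1 ∧ B z ≠ B w

theorem unit_eq_exp {c : ℂ} (hc : ‖c‖ = 1) : ∃ θ : ℝ, c = cexp (θ * I) :=
  ⟨c.arg, by
    have := norm_mul_exp_arg_mul_I c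
    rw [hc, ofReal_one, one_mul] at this
    exact this.symm⟩

theorem IsB.bl {B : ℂ → ℂ} (h : IsB B) : Bl B := by
  obtain ⟨-, θ, m, S, a, ha, hs, hB⟩ := h
  refine ⟨cexp (θ * I), Fin m ⊕ S, Sum.elim (fun _ => 0) (fun n => a n), ?_, ?_, ?_, ?_⟩
  · exact norm_exp_ofReal_mul_I θ
  · rintro (i | n)
    · exact mem_disc.2 (by simp)
    · exact mem_disc.2 (ha n n.2).2
  · have h1 : Summable ((fun i : Fin m ⊕ S => 1 - ‖(Sum.elim (fun _ => 0) (fun n : S => a n) i : ℂ)‖) ∘
        Sum.inl) := Summable.of_finite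
    have h2 : Summable ((fun i : Fin m ⊕ S => 1 - ‖(Sum.elim (fun _ => 0) (fun n : S => a n) i : ℂ)‖) ∘
        Sum.inr) := hs
    exact (HasSum.sum h1.hasSum h2.hasSum).summable
  · intro z hz
    obtain ⟨p, hp, hBz⟩ := hB z (mem_disc.1 hz)
    have h1 : HasProd (fun i : Fin m ⊕ S => bfac (Sum.elim (fun _ => 0) (fun n : S => a n) i) z)
        (z ^ m * p) := by
      refine HasProd.sum ?_ ?_
      · have h2 : (fun i : Fin m ⊕ S => bfac (Sum.elim (fun _ => 0) (fun n : S => a n) i) z) ∘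
            Sum.inl = fun _ : Fin m => z := by
          funext i
          simp [bfac]
        rw [h2]
        have h3 := hasProd_fintype (fun _ : Fin m => z)
        rw [Finset.prod_const, Finset.card_univ, Fintype.card_fin] at h3
        exact h3
      · have h2 : (fun i : Fin m ⊕ S => bfac (Sum.elim (fun _ => 0) (fun n : S => a n) i) z) ∘
            Sum.inr = fun n : S => (‖a n‖ : ℂ) / a n * ((a n - z) / (1 - conj (a n) * z)) := by
          funext n
          simp only [Function.comp_apply, Sum.elim_inr, bfac]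
          rw [if_neg (ha n n.2).1]
        rw [h2]
        exact hp
    have h2 : bp (Sum.elim (fun _ => 0) (fun n : S => a n)) z = z ^ m * p := h1.tprod_eq
    rw [h2, hBz, mul_assoc]

theorem isB_of_bl {B : ℂ → ℂ} (h : Bl B) (hn : NC B) : IsB B := by
  classical
  refine ⟨hn, ?_⟩
  obtain ⟨c, ι, a, hc, ha, hs, hu⟩ := h
  obtain ⟨θ, hθ⟩ := unit_eq_exp hc
  have hcount : Countable ι := by
    have h1 : (Function.support fun i => 1 - ‖a i‖).Countable := hs.countable_support
    have h2 : (Function.support fun i => 1 - ‖a i‖) = univ := by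
      ext i
      have := mem_disc.1 (ha i)
      simp only [Function.mem_support, mem_univ, iff_true]
      linarith
    rwa [h2, Set.countable_univ_iff] at h1
  set Z : Set ι := {i | a i = 0} with hZ
  have hfin : Z.Finite := by
    have h1 := hs.tendsto_cofinite_zero.eventually (gt_mem_nhds (one_pos : (0 : ℝ) < 1))
    have h2 : Z ⊆ {i | ¬ (1 - ‖a i‖ < 1)} := by
      intro i hi
      have hi' : a i = 0 := hi
      show ¬ (1 - ‖a i‖ < 1)
      rw [hi', norm_zero, sub_zero]
      exact lt_irrefl _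
    exact (Filter.eventually_cofinite.1 h1).subset h2
  obtain ⟨e, he⟩ : ∃ e : ((Zᶜ : Set ι)) → ℕ, Function.Injective e := Countable.exists_injective_nat _
  let E : ((Zᶜ : Set ι)) ≃ range e := Equiv.ofInjective e he
  let b : ℕ → ℂ := fun n => if h : n ∈ range e then a (E.symm ⟨n, h⟩) else 0
  have hb : ∀ n : range e, b n = a (E.symm n) := by
    intro n
    simp only [b]
    rw [dif_pos n.2]
  refine ⟨θ, hfin.toFinset.card, range e, b, ?_, ?_, ?_⟩
  · intro n hn'
    have h1 := hb ⟨n, hn'⟩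
    rw [show b n = a (E.symm ⟨n, hn'⟩) from h1]
    exact ⟨(E.symm ⟨n, hn'⟩).2, mem_disc.1 (ha _)⟩
  · have h1 : Summable fun i : ((Zᶜ : Set ι)) => 1 - ‖a i‖ := hs.subtype _
    have h2 := (Equiv.summable_iff E.symm).2 h1
    refine h2.congr fun n => ?_
    simp only [Function.comp_apply]
    rw [hb n]
  · intro z hz
    have hz' : z ∈ disc := mem_disc.2 hz
    have hs' : Summable fun i : ((Zᶜ : Set ι)) => 1 - ‖a i‖ := hs.subtype _
    have h1 := bp_hasProd (a := fun i : ((Zᶜ : Set ι)) => a i) (fun i => ha i) hs' hz'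
    refine ⟨bp (fun i : ((Zᶜ : Set ι)) => a i) z, ?_, ?_⟩
    · have h2 := (Equiv.hasProd_iff E.symm).2 h1
      have h3 : ((fun i : ((Zᶜ : Set ι)) => bfac (a i) z) ∘ E.symm) =
          fun n : range e => (‖b n‖ : ℂ) / b n * ((b n - z) / (1 - conj (b n) * z)) := by
        funext n
        simp only [Function.comp_apply]
        rw [hb n, bfac, if_neg (show ¬ a (E.symm n) = 0 from (E.symm n).2)]
      rw [h3] at h2
      exact h2
    · rw [hu z hz', hθ, mul_assoc]
      congr 1
      have h2 : HasProd ((fun i : ι => bfac (a i) z) ∘ ((↑) : Z → ι))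
          (z ^ hfin.toFinset.card) := by
        have : Fintype Z := hfin.fintype
        have h3 := hasProd_fintype ((fun i : ι => bfac (a i) z) ∘ ((↑) : Z → ι))
        have h4 : ∏ i : Z, ((fun i : ι => bfac (a i) z) ∘ ((↑) : Z → ι)) i =
            z ^ hfin.toFinset.card := by
          have h5 : ∀ i : Z, ((fun i : ι => bfac (a i) z) ∘ ((↑) : Z → ι)) i = z := by
            intro i
            simp only [Function.comp_apply, bfac]
            rw [if_pos (show a i = 0 from i.2)]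
          rw [Finset.prod_congr rfl fun i _ => h5 i, Finset.prod_const, Finset.card_univ]
          congr 1
          rw [← Set.toFinset_card, hfin.toFinset_eq_toFinset]
        rwa [h4] at h3
      exact ((h2.mul_compl h1).unique (bp_hasProd ha hs hz')).symm

/-- Blaschke products map the disc into itself -/
theorem IsB.maps {B : ℂ → ℂ} (h : IsB B) : ∀ z ∈ disc, B z ∈ disc := by
  intro z hz
  have hb := h.bl
  rw [mem_disc]
  by_contra hcon
  rw [not_lt] at hcon
  have h1 : ‖B z‖ = 1 := le_antisymm (hb.le hz) hcon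
  have hmax : IsMaxOn (norm ∘ B) disc z := by
    intro w hw
    show ‖B w‖ ≤ ‖B z‖
    rw [h1]
    exact hb.le hw
  have h2 := Complex.eqOn_of_isPreconnected_of_isMaxOn_norm (convex_ball (0 : ℂ) 1).isPreconnected
    isOpen_ball hb.diff hz hmax
  obtain ⟨⟨x, y, hx, hy, hne⟩, -⟩ := h
  apply hne
  have h3 : B x = B z := h2 (mem_disc.2 hx)
  have h4 : B y = B z := h2 (mem_disc.2 hy)
  rw [h3, h4]

/-- the composition is not constant -/
theorem nc_comp {B C : ℂ → ℂ} (hB : DifferentiableOn ℂ B disc) (hBn : NC B)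
    (hC : DifferentiableOn ℂ C disc) (hCm : ∀ z ∈ disc, C z ∈ disc) (hCn : NC C) :
    NC fun z => B (C z) := by
  by_contra hcon
  have hconst : ∀ z ∈ disc, B (C z) = B (C 0) := by
    intro z hz
    by_contra h1
    exact hcon ⟨z, 0, mem_disc.1 hz, by simp, h1⟩
  have hCa : AnalyticOnNhd ℂ C disc := hC.analyticOnNhd isOpen_ball
  rcases hCa.is_constant_or_isOpen (convex_ball (0 : ℂ) 1).isPreconnected with ⟨w, hw⟩ | hop
  · obtain ⟨x, y, hx, hy, hne⟩ := hCn
    exact hne (by rw [hw x (mem_disc.2 hx), hw y (mem_disc.2 hy)])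
  · have h0 : (0 : ℂ) ∈ disc := mem_ball_self one_pos
    have hU : IsOpen (C '' disc) := hop disc subset_rfl isOpen_ball
    have hBa : AnalyticOnNhd ℂ B disc := hB.analyticOnNhd isOpen_ball
    have hcst : AnalyticOnNhd ℂ (fun _ : ℂ => B (C 0)) disc := analyticOnNhd_const
    have h1 : EqOn B (fun _ => B (C 0)) disc := by
      refine hBa.eqOn_of_preconnected_of_eventuallyEq hcst (convex_ball _ _).isPreconnected
        (hCm 0 h0) ?_
      filter_upwards [hU.mem_nhds (mem_image_of_mem C h0)] with y hy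
      obtain ⟨x, hx, rfl⟩ := hy
      exact hconst x hx
    obtain ⟨x, y, hx, hy, hne⟩ := hBn
    exact hne (by rw [h1 (mem_disc.2 hx), h1 (mem_disc.2 hy)])

/-- the automorphisms -/
noncomputable def aut (φ : ℝ) (a w : ℂ) : ℂ := cexp (φ * I) * ((w - a) / (1 - conj a * w))

/-- indestructible Blaschke products -/
def Ind (B : ℂ → ℂ) : Prop :=
  IsB B ∧ ∀ (φ : ℝ) (a : ℂ), ‖a‖ < 1 → IsB fun z => aut φ a (B z)

theorem bl_bfac {C : ℂ → ℂ} (h : Ind C) {a : ℂ} (ha : a ∈ disc) : Bl fun z => bfac a (C z) := by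
  by_cases h0 : a = 0
  · refine h.1.bl.congr fun z _ => ?_
    unfold bfac
    rw [if_pos h0]
  · have h1 := (h.2 0 a (mem_disc.1 ha)).bl
    have hc : ‖-((‖a‖ : ℂ) / a)‖ = 1 := by
      rw [norm_neg, norm_div, Complex.norm_real, norm_norm, div_self (norm_ne_zero_iff.2 h0)]
    refine (h1.const_mul hc).congr fun z _ => ?_
    unfold bfac aut
    rw [if_neg h0, ofReal_zero, zero_mul, Complex.exp_zero, one_mul]
    ring

/-- **A Blaschke product composed with an indestructible Blaschke product.** -/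
theorem isB_comp {B C : ℂ → ℂ} (hB : IsB B) (hC : Ind C) : IsB fun z => B (C z) := by
  have hn : NC fun z => B (C z) := nc_comp hB.bl.diff hB.1 hC.1.bl.diff hC.1.maps hC.1.1
  obtain ⟨z₀, hz₀, h0⟩ : ∃ z₀ ∈ disc, B (C z₀) ≠ 0 := by
    by_contra hcon
    push Not at hcon
    obtain ⟨x, y, hx, hy, hne⟩ := hn
    exact hne (by
      show B (C x) = B (C y)
      rw [hcon x (mem_disc.2 hx), hcon y (mem_disc.2 hy)])
  exact isB_of_bl (comp_bl hB.bl hC.1.bl.diff hC.1.maps (fun a ha => bl_bfac hC ha) hz₀ h0) hn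

/-- **Composition of indestructible Blaschke products.** -/
theorem ind_comp {B C : ℂ → ℂ} (hB : Ind B) (hC : Ind C) : Ind fun z => B (C z) :=
  ⟨isB_comp hB.1 hC, fun φ a ha => isB_comp (B := fun w => aut φ a (B w)) (hB.2 φ a ha) hC⟩

theorem bp_unit (a z : ℂ) : bp (fun _ : Unit => a) z = bfac a z := by
  have h := hasProd_fintype (fun _ : Unit => bfac a z)
  rw [Fintype.prod_unique] at h
  exact h.tprod_eq

/-- automorphisms are Blaschke products -/
theorem isB_aut (φ : ℝ) {a : ℂ} (ha : ‖a‖ < 1) : IsB (aut φ a) := by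
  have ha' : a ∈ disc := mem_disc.2 ha
  apply isB_of_bl
  · by_cases h0 : a = 0
    · refine ⟨cexp (φ * I), Unit, fun _ => a, norm_exp_ofReal_mul_I φ, fun _ => ha',
        Summable.of_finite, fun z _ => ?_⟩
      rw [bp_unit]
      unfold bfac aut
      rw [if_pos h0, h0, map_zero, zero_mul, sub_zero, sub_zero, div_one]
    · refine ⟨-(cexp (φ * I) * (a / ‖a‖)), Unit, fun _ => a, ?_, fun _ => ha',
        Summable.of_finite, fun z _ => ?_⟩
      · rw [norm_neg, norm_mul, norm_exp_ofReal_mul_I, one_mul, norm_div, Complex.norm_real,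
          norm_norm, div_self (norm_ne_zero_iff.2 h0)]
      · rw [bp_unit]
        unfold bfac aut
        rw [if_neg h0]
        have h1 : (‖a‖ : ℂ) ≠ 0 := by
          rw [Complex.ofReal_ne_zero]; exact norm_ne_zero_iff.2 h0
        have h2 : (a / (‖a‖ : ℂ)) * ((‖a‖ : ℂ) / a) = 1 := by field_simp
        calc cexp (φ * I) * ((z - a) / (1 - conj a * z)) =
            -(cexp (φ * I)) * 1 * ((a - z) / (1 - conj a * z)) := by ring
          _ = -(cexp (φ * I)) * ((a / (‖a‖ : ℂ)) * ((‖a‖ : ℂ) / a)) *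
              ((a - z) / (1 - conj a * z)) := by rw [h2]
          _ = _ := by ring
  · obtain ⟨w, hw, hne⟩ : ∃ w : ℂ, ‖w‖ < 1 ∧ w ≠ a := by
      by_cases h0 : a = 0
      · exact ⟨1 / 2, by norm_num, by rw [h0]; norm_num⟩
      · exact ⟨0, by simp, fun h => h0 h.symm⟩
    refine ⟨a, w, ha, hw, ?_⟩
    have h1 : aut φ a a = 0 := by unfold aut; rw [sub_self, zero_div, mul_zero]
    rw [h1]
    unfold aut
    exact (mul_ne_zero (Complex.exp_ne_zero _) (div_ne_zero (sub_ne_zero.2 hne)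
      (bden_ne ha' (mem_disc.2 hw)))).symm

/-- **Characterisation.** -/
theorem ind_iff {C : ℂ → ℂ} (hC : IsB C) :
    Ind C ↔ ∀ B : ℂ → ℂ, IsB B → IsB fun z => B (C z) :=
  ⟨fun h _ hB => isB_comp hB h, fun h => ⟨hC, fun φ _ ha => h _ (isB_aut φ ha)⟩⟩

end Pool.Agent.K3h78.IB
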